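import Pool.Agent.H46.CX.CXDefs

/-! Machine level: programs realising the basic polynomial-time closure properties. -/

namespace Pool.Agent.H46.CX

open Function

theorem Exec.mono {p s t n m m'} (h : Exec p s t n m) (hm : m ≤ m') : Exec p s t n m' := by
  induction h with
  | push h => exact .push (lt_of_lt_of_le h hm)
  | pop => exact .pop
  | seq _ _ a b => exact .seq (a hm) (b hm)
  | iteT h _ a => exact .iteT h (a hm)
  | iteF h _ a => exact .iteF h (a hm)
  | loop0 h => exact .loop0 h
  | loopS h _ _ a b => exact .loopS h (a hm) (b hm)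

theorem Exec.space {p s t n m} (h : Exec p s t n m) :
    ∀ k, (∀ i, (s i).length ≤ k) → Exec p s t n (k + n) ∧ ∀ i, (t i).length ≤ k + n := by
  induction h with
  | @push i b s m h =>
    intro k hk
    refine ⟨.push (by have := hk i; omega), fun j => ?_⟩
    by_cases e : j = i
    · subst e; simp; exact hk j
    · simp [update_of_ne e]; have := hk j; omega
  | @pop i s m =>
    intro k hk
    refine ⟨.pop, fun j => ?_⟩
    by_cases e : j = i
    · subst e; simp; have := hk j; omega
    · simp [update_of_ne e]; have := hk j; omega
  | seq _ _ a b =>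
    intro k hk
    obtain ⟨a1, a2⟩ := a k hk
    obtain ⟨b1, b2⟩ := b _ a2
    exact ⟨.seq (a1.mono (by omega)) (b1.mono (by omega)), fun i => by have := b2 i; omega⟩
  | iteT h _ a =>
    intro k hk
    obtain ⟨a1, a2⟩ := a k hk
    exact ⟨.iteT h (a1.mono (by omega)), fun i => by have := a2 i; omega⟩
  | iteF h _ a =>
    intro k hk
    obtain ⟨a1, a2⟩ := a k hk
    exact ⟨.iteF h (a1.mono (by omega)), fun i => by have := a2 i; omega⟩
  | loop0 h => intro k hk; exact ⟨.loop0 h, fun i => by have := hk i; omega⟩
  | loopS h _ _ a b =>
    intro k hk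
    obtain ⟨a1, a2⟩ := a k hk
    obtain ⟨b1, b2⟩ := b _ a2
    exact ⟨.loopS h (a1.mono (by omega)) (b1.mono (by omega)), fun i => by have := b2 i; omega⟩

/-- stacks given by a list -/
def st (L : List (List Bool)) : St := fun i => L.getD i []

theorem io_eq (x : List Bool) : io x = st [x] := by
  funext i; rcases i with _ | i <;> simp [io, st]

@[simp] theorem st_zero (a L) : st (a :: L) 0 = a := rfl
@[simp] theorem st_succ (a L i) : st (a :: L) (i + 1) = st L i := by simp [st]
@[simp] theorem st_nil (i) : st [] i = [] := by simp [st]
@[simp] theorem st_one (a L) : st (a :: L) 1 = st L 0 := st_succ a L 0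
@[simp] theorem st_two (a L) : st (a :: L) 2 = st L 1 := st_succ a L 1
@[simp] theorem st_three (a L) : st (a :: L) 3 = st L 2 := st_succ a L 2

theorem update_st (L : List (List Bool)) (i v) (h : i < L.length) : update (st L) i v = st (L.set i v) := by
  funext j
  by_cases e : j = i
  · subst e; simp [st, h]
  · simp [st, update_of_ne e, List.getElem?_set_ne (Ne.symm e)]

/-- run within a time bound -/
def X (p : Prog) (s t : St) (N : ℕ) : Prop := ∃ n ≤ N, ∃ m, Exec p s t n m

theorem X.mono {p s t N N'} (h : X p s t N) (e : N ≤ N') : X p s t N' :=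
  let ⟨n, hn, m, h⟩ := h; ⟨n, hn.trans e, m, h⟩

theorem X.cast {p s t N s' t'} (h : X p s t N) (e : s = s') (e' : t = t') : X p s' t' N := e ▸ e' ▸ h

theorem X.push (i b s) : X (.push i b) s (update s i (b :: s i)) 1 := ⟨1, le_rfl, _, .push (Nat.lt_succ_self _)⟩
theorem X.pop (i s) : X (.pop i) s (update s i (s i).tail) 1 := ⟨1, le_rfl, 0, .pop⟩
theorem X.seq {p q s t u N K} (a : X p s t N) (b : X q t u K) : X (.seq p q) s u (N + K + 1) := by
  obtain ⟨n, hn, m, a⟩ := a
  obtain ⟨k, hk, m', b⟩ := b
  exact ⟨_, by omega, max m m', .seq (a.mono (le_max_left _ _)) (b.mono (le_max_right _ _))⟩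
theorem X.iteT {i p q s t N} (h : (s i).head? = some true) (a : X p s t N) : X (.ite i p q) s t (N + 1) := by
  obtain ⟨n, hn, m, a⟩ := a
  exact ⟨_, by omega, m, .iteT h a⟩
theorem X.iteF {i p q s t N} (h : (s i).head? ≠ some true) (a : X q s t N) : X (.ite i p q) s t (N + 1) := by
  obtain ⟨n, hn, m, a⟩ := a
  exact ⟨_, by omega, m, .iteF h a⟩
theorem X.loop0 {i p s} (h : s i = []) : X (.loop i p) s s 1 := ⟨1, le_rfl, 0, .loop0 h⟩
theorem X.loopS {i p s t u N K} (h : s i ≠ []) (a : X p s t N) (b : X (.loop i p) t u K) :
    X (.loop i p) s u (N + K + 1) := by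
  obtain ⟨n, hn, m, a⟩ := a
  obtain ⟨k, hk, m', b⟩ := b
  exact ⟨_, by omega, max m m', .loopS h (a.mono (le_max_left _ _)) (b.mono (le_max_right _ _))⟩

theorem X.len {p x y N} (h : X p (io x) (io y) N) : y.length ≤ x.length + N := by
  obtain ⟨n, hn, m, h⟩ := h
  have := (h.space x.length (fun i => by unfold io; split <;> simp)).2 0
  simp [io] at this; omega

/-- renumber the stacks `i ↦ i + 1` -/
def Prog.shift : Prog → Prog
  | .push i b => .push (i + 1) b
  | .pop i => .pop (i + 1)
  | .seq p q => .seq p.shift q.shift
  | .ite i p q => .ite (i + 1) p.shift q.shift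
  | .loop i p => .loop (i + 1) p.shift

def scons (a : List Bool) (s : St) : St
  | 0 => a
  | i + 1 => s i

theorem scons_update (a s i v) : scons a (update s i v) = update (scons a s) (i + 1) v := by
  funext j
  rcases j with _ | j
  · simp [scons]
  · by_cases e : j = i
    · subst e; simp [scons]
    · simp [scons, update_of_ne e, e]

theorem Exec.shift {p s t n m} (a) (h : Exec p s t n m) : Exec p.shift (scons a s) (scons a t) n m := by
  induction h with
  | push h => rw [scons_update]; exact .push h
  | pop => rw [scons_update]; exact .pop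
  | seq _ _ a b => exact .seq a b
  | iteT h _ a => exact .iteT h a
  | iteF h _ a => exact .iteF h a
  | loop0 h => exact .loop0 h
  | loopS h _ _ a b => exact .loopS h a b

theorem scons_st (a L) : scons a (st L) = st (a :: L) := by
  funext i; rcases i with _ | i <;> simp [scons]

theorem X.shift {p L M N} (a) (h : X p (st L) (st M) N) : X p.shift (st (a :: L)) (st (a :: M)) N := by
  obtain ⟨n, hn, m, h⟩ := h
  exact ⟨n, hn, m, by simpa [scons_st] using h.shift a⟩

/-- for each symbol of stack `i`, pop it and run `p b` -/
def each (i : ℕ) (p : Bool → Prog) : Prog :=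
  .loop i (.ite i (.seq (.pop i) (p true)) (.seq (.pop i) (p false)))

theorem X.each {i j : ℕ} (hij : i ≠ j) {p} (w : Bool → List Bool) (c : ℕ)
    (h : ∀ b s, X (p b) s (update s j (w b ++ s j)) c) (s : St) :
    X (each i p) s (update (update s i []) j ((s i).reverse.flatMap w ++ s j)) ((c + 4) * (s i).length + 1) := by
  generalize hx : s i = x
  induction x generalizing s with
  | nil => exact ((X.loop0 hx).mono (by simp)).cast rfl (by rw [show update s i [] = s from update_eq_self_iff.2 hx.symm]; simp)
  | cons b y ih =>
    have e : X (.pop i) s (update s i y) 1 := by simpa [hx] using X.pop i s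
    have e2 := ih (update (update s i y) j (w b ++ update s i y j)) (by simp [update_of_ne hij])
    have e3 : update (update (update (update s i y) j (w b ++ update s i y j)) i []) j
        (List.flatMap w y.reverse ++ update (update s i y) j (w b ++ update s i y j) j) =
        update (update s i []) j (List.flatMap w (b :: y).reverse ++ s j) := by
      funext k
      by_cases h1 : k = j
      · subst h1; simp [update_of_ne hij.symm]
      · by_cases h2 : k = i
        · subst h2; simp [update_of_ne h1]
        · simp [update_of_ne h1, update_of_ne h2]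
    rw [e3] at e2
    cases b
    · exact (X.loopS (by simp [hx]) (X.iteF (by simp [hx]) (e.seq (h _ _))) e2).mono (by simp; nlinarith)
    · exact (X.loopS (by simp [hx]) (X.iteT (by simp [hx]) (e.seq (h _ _))) e2).mono (by simp; nlinarith)

/-- move stack `i` onto stack `j`, reversing it -/
def mv (i j : ℕ) : Prog := each i (.push j)

theorem X.mv {i j : ℕ} (hij : i ≠ j) (s : St) :
    X (mv i j) s (update (update s i []) j ((s i).reverse ++ s j)) (5 * (s i).length + 1) := by
  simpa [CX.mv] using X.each hij (fun b => [b]) 1 (fun b s => X.push j b s) s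

def clr (i : ℕ) : Prog := .loop i (.pop i)

theorem X.clr (i : ℕ) (s : St) : X (clr i) s (update s i []) (2 * (s i).length + 1) := by
  generalize hx : s i = x
  induction x generalizing s with
  | nil => exact ((X.loop0 hx).mono (by simp)).cast rfl (by simp [← hx])
  | cons b y ih =>
    have e := ih (update s i (s i).tail) (by simp [hx])
    exact ((X.loopS (by simp [hx]) (X.pop i s) e).mono (by simp; omega)).cast rfl (by simp)

def mv2 (i j k : ℕ) : Prog := each i (fun b => .seq (.push j b) (.push k b))

theorem X.mv2 {i j k : ℕ} (hij : i ≠ j) (hik : i ≠ k) (hjk : j ≠ k) (s : St) :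
    X (mv2 i j k) s (update (update (update s i []) j ((s i).reverse ++ s j)) k ((s i).reverse ++ s k))
      (7 * (s i).length + 1) := by
  generalize hx : s i = x
  induction x generalizing s with
  | nil => exact ((X.loop0 hx).mono (by simp)).cast rfl (by rw [show update s i [] = s from update_eq_self_iff.2 hx.symm]; simp)
  | cons b y ih =>
    have e : X (.pop i) s (update s i y) 1 := by simpa [hx] using X.pop i s
    have e1 := e.seq ((X.push j b _).seq (X.push k b _))
    have e2 := ih _ (show update (update (update s i y) j (b :: update s i y j)) k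
      (b :: update (update s i y) j (b :: update s i y j) k) i = y by simp [update_of_ne hij, update_of_ne hik])
    have e3 : X (.ite i (.seq (.pop i) (.seq (.push j true) (.push k true)))
        (.seq (.pop i) (.seq (.push j false) (.push k false)))) s (update (update (update s i y) j (b :: update s i y j)) k
      (b :: update (update s i y) j (b :: update s i y j) k)) 6 := by
      cases b
      · exact X.iteF (by simp [hx]) e1
      · exact X.iteT (by simp [hx]) e1
    refine X.cast ((X.loopS (by simp [hx]) e3 e2).mono (by simp; omega)) rfl ?_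
    · funext l
      by_cases h0 : l = k
      · subst h0; simp [update_of_ne hjk.symm, update_of_ne hik.symm]
      by_cases h1 : l = j
      · subst h1; simp [update_of_ne hij.symm, update_of_ne h0]
      by_cases h2 : l = i
      · subst h2; simp [update_of_ne h1, update_of_ne h0]
      · simp [update_of_ne h1, update_of_ne h2, update_of_ne h0]

/-- push a fixed word -/
def pushes (i : ℕ) : List Bool → Prog
  | [] => .seq (.push i false) (.pop i)
  | b :: w => .seq (pushes i w) (.push i b)

theorem X.pushes (i : ℕ) (w : List Bool) (s : St) : X (pushes i w) s (update s i (w ++ s i)) (2 * w.length + 3) := by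
  induction w with
  | nil => exact ((X.push i false s).seq (X.pop i _)).cast rfl (by simp)
  | cons b w ih => exact ((ih.seq (X.push i b _)).mono (by simp; omega)).cast rfl (by simp)

/-- move the code of one tree from stack 0 to stack 1 (reversed), stack 2 counts the missing subtrees -/
def splitL : Prog :=
  .loop 2 (.ite 0 (.seq (.pop 0) (.seq (.push 1 true) (.push 2 true)))
    (.seq (.pop 0) (.seq (.push 1 false) (.seq (.pop 2)
      (.ite 0 (.seq (.pop 0) (.push 1 true)) (.seq (.pop 0) (.push 1 false)))))))

theorem X.splitL (t : Tr) : ∀ (r a c : List Bool) (u : Bool) (fin : St) (N : ℕ),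
    X splitL (st [r, t.code.reverse ++ a, c]) fin N →
    X splitL (st [t.code ++ r, a, u :: c]) fin (N + 7 * t.code.length) := by
  induction t with
  | leaf b =>
    intro r a c u fin N h
    have e1 := X.pop 0 (st [false :: b :: r, a, u :: c])
    have e2 := X.push 1 false (st [b :: r, a, u :: c])
    have e3 := X.pop 2 (st [b :: r, false :: a, u :: c])
    have e4 := X.pop 0 (st [b :: r, false :: a, c])
    have e5 := X.push 1 b (st [r, false :: a, c])
    simp [update_st] at e1 e2 e3 e4 e5
    simp [Tr.code] at h ⊢
    cases b
    · exact (X.loopS (by simp) (X.iteF (by simp) (e1.seq (e2.seq (e3.seq (X.iteF (by simp) (e4.seq e5)))))) h).mono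
        (by omega)
    · exact (X.loopS (by simp) (X.iteF (by simp) (e1.seq (e2.seq (e3.seq (X.iteT (by simp) (e4.seq e5)))))) h).mono
        (by omega)
  | node l r' ih1 ih2 =>
    intro r a c u fin N h
    have e1 := X.pop 0 (st [true :: (l.code ++ (r'.code ++ r)), a, u :: c])
    have e2 := X.push 1 true (st [l.code ++ (r'.code ++ r), a, u :: c])
    have e3 := X.push 2 true (st [l.code ++ (r'.code ++ r), true :: a, u :: c])
    simp [update_st] at e1 e2 e3
    simp [Tr.code] at h ⊢
    have := ih1 _ _ _ true _ _ (ih2 r (l.code.reverse ++ true :: a) c u fin N h)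
    exact (X.loopS (by simp) (X.iteT (by simp) (e1.seq (e2.seq e3))) this).mono (by omega)

def split : Prog := .seq (.pop 0) (.seq (.push 2 true) splitL)

theorem X.split (l r : Tr) :
    X split (st [(Tr.node l r).code, [], []]) (st [r.code, l.code.reverse, []]) (7 * l.code.length + 5) := by
  have e1 := X.pop 0 (st [true :: (l.code ++ r.code), [], []])
  have e2 := X.push 2 true (st [l.code ++ r.code, [], []])
  simp [update_st] at e1 e2
  have := X.splitL l r.code [] [] true _ _ (X.loop0 (by simp))
  simp at this
  exact (e1.seq (e2.seq this)).mono (by omega)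

theorem st_pad (L : List (List Bool)) : st (L ++ [[]]) = st L := by
  funext i
  simp only [st, List.getD_eq_getElem?_getD, List.getElem?_append]
  split
  · rfl
  · rename_i h
    rw [List.getElem?_eq_none (not_lt.1 h)]
    rcases i - L.length with _ | k <;> simp

theorem st2 (a) : st [a, []] = st [a] := st_pad [a]
theorem st3 (a b) : st [a, b, []] = st [a, b] := st_pad [a, b]
theorem st4 (a b c) : st [a, b, c, []] = st [a, b, c] := st_pad [a, b, c]

/-- `p` maps the word `x` to the word `y` within `N` steps -/
def R (p : Prog) (x y : List Bool) (N : ℕ) : Prop := X p (st [x]) (st [y]) N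

theorem R.mono {p x y N N'} (h : R p x y N) (e : N ≤ N') : R p x y N' := X.mono h e
theorem R.seq {p q x y z N K} (a : R p x y N) (b : R q y z K) : R (.seq p q) x z (N + K + 1) := X.seq a b
theorem R.len {p x y N} (h : R p x y N) : y.length ≤ x.length + N := by
  apply X.len (p := p); simpa [io_eq, R] using h

def fstP : Prog := .seq split (.seq (clr 0) (mv 1 0))
def sndP : Prog := .seq split (clr 1)

theorem R.fst (l r : Tr) : R fstP (Tr.node l r).code l.code (12 * (Tr.node l r).code.length + 10) := by
  have e1 := X.split l r
  have e2 := X.clr 0 (st [r.code, l.code.reverse, []])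
  have e3 := X.mv (i := 1) (j := 0) (by simp) (st [[], l.code.reverse, []])
  simp [update_st] at e2 e3
  have := e1.seq (e2.seq e3)
  simp only [st3, st2] at this
  exact X.mono this (by simp [Tr.code]; omega)

theorem R.snd (l r : Tr) : R sndP (Tr.node l r).code r.code (12 * (Tr.node l r).code.length + 10) := by
  have e1 := X.split l r
  have e2 := X.clr 1 (st [r.code, l.code.reverse, []])
  simp [update_st] at e2
  have := e1.seq e2
  simp only [st3, st2] at this
  exact X.mono this (by simp [Tr.code]; omega)

def pairP (p q : Prog) : Prog :=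
  .seq (mv 0 1) (.seq (mv2 1 0 2) (.seq p.shift.shift (.seq (mv 0 1) (.seq (mv 1 3) (.seq q.shift.shift.shift
    (.seq (mv 3 1) (.seq (mv 1 0) (.seq (mv 2 1) (.seq (mv 1 0) (.push 0 true))))))))))

theorem R.pair {p q x y z N K} (a : R p x y N) (b : R q x z K) :
    R (pairP p q) x (true :: (y ++ z)) (45 * x.length + 11 * N + 11 * K + 20) := by
  have l1 := a.len
  have l2 := b.len
  have e1 := X.mv (i := 0) (j := 1) (by simp) (st [x, [], [], []])
  have e2 := X.mv2 (i := 1) (j := 0) (k := 2) (by simp) (by simp) (by simp) (st [[], x.reverse, [], []])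
  have e3 := (X.shift [] a).shift x
  rw [← st4, ← st4 x [] y] at e3
  have e4 := X.mv (i := 0) (j := 1) (by simp) (st [x, [], y, []])
  have e5 := X.mv (i := 1) (j := 3) (by simp) (st [[], x.reverse, y, []])
  have e6 := ((X.shift y b).shift []).shift []
  have e7 := X.mv (i := 3) (j := 1) (by simp) (st [[], [], y, z])
  have e8 := X.mv (i := 1) (j := 0) (by simp) (st [[], z.reverse, y, []])
  have e9 := X.mv (i := 2) (j := 1) (by simp) (st [z, [], y, []])
  have e10 := X.mv (i := 1) (j := 0) (by simp) (st [z, y.reverse, [], []])
  have e11 := X.push 0 true (st [y ++ z, [], [], []])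
  simp [update_st] at e1 e2 e4 e5 e7 e8 e9 e10 e11
  have := e1.seq (e2.seq (e3.seq (e4.seq (e5.seq (e6.seq (e7.seq (e8.seq (e9.seq (e10.seq e11)))))))))
  simp only [st4, st3, st2] at this
  exact X.mono this (by omega)

def constP (w : List Bool) : Prog := .seq (clr 0) (pushes 0 w)

theorem R.const (w x : List Bool) : R (constP w) x w (2 * x.length + 2 * w.length + 5) := by
  have e1 := X.clr 0 (st [x])
  have e2 := X.pushes 0 w (st [[]])
  simp [update_st] at e1 e2
  exact X.mono (e1.seq e2) (by omega)

/-- branch on the first symbol -/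
theorem R.iteT {p q x y N} (h : x.head? = some true) (a : R p x y N) : R (.ite 0 p q) x y (N + 1) := X.iteT h a
theorem R.iteF {p q x y N} (h : x.head? ≠ some true) (a : R q x y N) : R (.ite 0 p q) x y (N + 1) := X.iteF h a
theorem R.pop (b x) : R (.pop 0) (b :: x) x 1 := by simpa [update_st, R] using X.pop 0 (st [b :: x])
theorem R.skip (x) : R (pushes 0 []) x x 3 := by simpa [update_st, R] using X.pushes 0 [] (st [x])

def codeP : Prog := .seq (mv 0 1) (.seq (pushes 0 [false, false]) (each 1 (fun b => pushes 0 [true, false, b])))

theorem enc_bits (x : List Bool) : enc x = x.flatMap (fun b => [true, false, b]) ++ [false, false] := by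
  induction x with
  | nil => rfl
  | cons b x ih =>
    change true :: ([false, b] ++ enc x) = _
    rw [ih]; simp

theorem R.code (x : List Bool) : R codeP x (enc x) (18 * x.length + 12) := by
  have e1 := X.mv (i := 0) (j := 1) (by simp) (st [x, []])
  have e2 := X.pushes 0 [false, false] (st [[], x.reverse])
  have e3 := X.each (i := 1) (j := 0) (by simp) (fun b => [true, false, b]) 9
    (fun b s => X.pushes 0 [true, false, b] s) (st [[false, false], x.reverse])
  simp [update_st] at e1 e2 e3
  have := e1.seq (e2.seq e3)
  simp only [st2] at this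
  rw [enc_bits]
  exact X.mono this (by omega)

/-- read a pair (flag, state): put the flag on stack 0 (nonempty iff true) and the state on stack 1 -/
def flagP : Prog := .seq (.pop 1) (.seq (.pop 1) (.ite 1 (.seq (.pop 1) (.push 0 true)) (.pop 1)))

theorem X.flag (b : Bool) (y : List Bool) :
    X flagP (st [[], true :: false :: b :: y]) (st [if b then [true] else [], y]) 8 := by
  have e1 := X.pop 1 (st [[], true :: false :: b :: y])
  have e2 := X.pop 1 (st [[], false :: b :: y])
  have e3 := X.pop 1 (st [[], b :: y])
  have e4 := X.push 0 true (st [[], y])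
  simp [update_st] at e1 e2 e3 e4
  cases b
  · exact X.mono (e1.seq (e2.seq (X.iteF (by simp) e3))) (by omega)
  · exact X.mono (e1.seq (e2.seq (X.iteT (by simp) (e3.seq e4)))) (by omega)

def bodyP (h : Prog) : Prog := .seq (.pop 0) (.seq h.shift flagP)

theorem X.body {h x b y N} (a : R h x (true :: false :: b :: y) N) :
    X (bodyP h) (st [[true], x]) (st [if b then [true] else [], y]) (N + 11) := by
  have e1 := X.pop 0 (st [[true], x])
  simp [update_st] at e1
  exact X.mono (e1.seq ((X.shift [] a).seq (X.flag b y))) (by omega)

def preP : Prog := .seq (mv 0 2) (.seq (mv 2 1) (.push 0 true))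
def postP : Prog := .seq (mv 1 2) (mv 2 0)

theorem X.pre (x : List Bool) : X preP (st [x]) (st [[true], x]) (10 * x.length + 5) := by
  have e1 := X.mv (i := 0) (j := 2) (by simp) (st [x, [], []])
  have e2 := X.mv (i := 2) (j := 1) (by simp) (st [[], [], x.reverse])
  have e3 := X.push 0 true (st [[], x, []])
  simp [update_st] at e1 e2 e3
  have := e1.seq (e2.seq e3)
  simp only [st3, st2] at this
  exact X.mono this (by omega)

theorem X.post (x : List Bool) : X postP (st [[], x]) (st [x]) (10 * x.length + 5) := by
  have e1 := X.mv (i := 1) (j := 2) (by simp) (st [[], x, []])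
  have e2 := X.mv (i := 2) (j := 0) (by simp) (st [[], [], x.reverse])
  simp [update_st] at e1 e2
  have := e1.seq e2
  simp only [st3, st2] at this
  exact X.mono this (by omega)

end Pool.Agent.H46.CX
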