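import Pool.Agent.H46.CX.CXList

/-! Polynomial-time arithmetic and indexed list operations. -/

namespace Pool.Agent.H46.CX

open Function

variable {α β γ δ σ : Type} [Enc α] [Enc β] [Enc γ] [Enc δ] [Enc σ]

attribute [fun_prop] PB.comp

theorem size_bits (l : List Bool) : size l = 3 * l.length + 2 := by
  induction l with
  | nil => rfl
  | cons a l ih => simp [ih]; omega
theorem size_nat (n : ℕ) : size n = 3 * n.size + 2 := by rw [← Nat.size_eq_bits_len]; exact size_bits n.bits
theorem size_nat_mono {m n : ℕ} (h : m ≤ n) : size m ≤ size n := by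
  have := Nat.size_le_size h; simp only [size_nat]; omega
theorem size_nat_of_lt {m k : ℕ} (h : m < 2 ^ k) : size m ≤ 3 * k + 2 := by
  have := Nat.size_le.2 h; simp only [size_nat]; omega
theorem size_nat_le (n : ℕ) : size n ≤ 3 * n + 2 := size_nat_of_lt Nat.lt_two_pow_self
theorem lt_two_pow_size (n : ℕ) : n < 2 ^ size n :=
  (Nat.lt_size_self n).trans_le (Nat.pow_le_pow_right (by omega) (by rw [size_nat]; omega))
theorem size_mul_le (m n : ℕ) : size (m * n) ≤ size m + size n := by
  have : (m * n).size ≤ m.size + n.size := Nat.size_le.2 (by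
    rw [pow_add]; exact Nat.mul_lt_mul'' (Nat.lt_size_self m) (Nat.lt_size_self n))
  simp only [size_nat]; omega
theorem size_add_le (m n : ℕ) : size (m + n) ≤ size m + size n := by
  have : (m + n).size ≤ m.size + n.size := Nat.size_le.2 (by
    have h1 := Nat.lt_size_self m
    have h2 := Nat.lt_size_self n
    rw [pow_add]
    obtain ⟨a, ha⟩ := Nat.exists_eq_add_of_lt h1
    obtain ⟨b, hb⟩ := Nat.exists_eq_add_of_lt h2
    rw [ha, hb]; nlinarith [Nat.zero_le (m * n), Nat.zero_le (a * b), Nat.zero_le (m * b), Nat.zero_le (a * n)])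
  simp only [size_nat]; omega

/-- the number with the given binary digits, least significant first -/
def ofBits (l : List Bool) : ℕ := l.foldr Nat.bit 0

@[simp] theorem ofBits_nil : ofBits [] = 0 := rfl
@[simp] theorem ofBits_cons (b l) : ofBits (b :: l) = Nat.bit b (ofBits l) := rfl
@[simp] theorem ofBits_bits (n : ℕ) : ofBits n.bits = n := by
  induction n using Nat.binaryRec' with
  | zero => simp
  | bit b n hb ih => rw [Nat.bits_append_bit n b hb, ofBits_cons, ih]
theorem ofBits_lt (l : List Bool) : ofBits l < 2 ^ l.length := by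
  induction l with
  | nil => simp
  | cons b l ih => cases b <;> simp [Nat.bit_val, pow_succ] <;> omega
theorem size_ofBits (l : List Bool) : size (ofBits l) ≤ size l := by
  rw [size_bits]; exact size_nat_of_lt (ofBits_lt l)
theorem ofBits_pad (l : List Bool) (m : List Bool) : ofBits (l ++ m.map fun _ => false) = ofBits l := by
  induction l with
  | nil => induction m with
    | nil => rfl
    | cons _ m ih => simp at ih ⊢; simp [List.replicate_succ, ih]
  | cons b l ih => simp only [List.cons_append, ofBits_cons, ih]

@[fun_prop] theorem PT.bits {n : α → ℕ} (hn : PT n) : PT (fun a => (n a).bits) := hn.cast fun _ => rfl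

@[fun_prop] theorem PT.bit {b : α → Bool} {n : α → ℕ} (hb : PT b) (hn : PT n) : PT (fun a => Nat.bit (b a) (n a)) :=
  PT.cast (g := fun a => if n a = 0 ∧ b a = false then [] else b a :: (n a).bits) (by fun_prop) fun a => by
    change listTr _ = listTr _
    congr 1
    split
    · simp [*]
    · exact Nat.bits_append_bit _ _ (by simp_all)

@[fun_prop] theorem PT.ofBits {l : α → List Bool} (hl : PT l) : PT (fun a => ofBits (l a)) :=
  (PT.listRec (f := fun (_ : Unit) l => CX.ofBits l) (F := fun _ x _ r => Nat.bit x r) (B := fun a => size a)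
    (by simp; fun_prop) (by fun_prop) (by simp) PB.size' fun _ l => by have := size_ofBits l; simp; omega).comp
    ((PT.const ()).pair hl)

theorem PT.succ' {n : α → ℕ} (hn : PT n) : PT (fun a => n a + 1) :=
  ((PT.listRec (f := fun (_ : Unit) l => CX.ofBits l + 1)
    (F := fun _ x l r => bif x then Nat.bit false r else Nat.bit true (CX.ofBits l)) (B := fun a => size a + size 1)
    (by simp; fun_prop) (by fun_prop) (fun _ x l => by cases x <;> simp [Nat.bit_val]; omega)
    (PB.size'.add (PB.const _)) fun _ l => by
      have := size_ofBits l; have := size_add_le (CX.ofBits l) 1; simp only [size_pair]; omega).comp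
    ((PT.const ()).pair hn.bits)).congr fun a => by simp

theorem PT.pred' {n : α → ℕ} (hn : PT n) : PT (fun a => n a - 1) :=
  ((PT.listRec (f := fun (_ : Unit) l => CX.ofBits l - 1)
    (F := fun _ x l r => bif x then Nat.bit false (CX.ofBits l) else if CX.ofBits l = 0 then 0 else Nat.bit true r)
    (B := fun a => size a) (by simp; fun_prop) (by fun_prop)
    (fun _ x l => by cases x <;> simp [Nat.bit_val]; split <;> omega) PB.size' fun _ l => by
      have := size_ofBits l; have := size_nat_mono (Nat.sub_le (CX.ofBits l) 1); simp only [size_pair]; omega).comp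
    ((PT.const ()).pair hn.bits)).congr fun a => by simp

/-- the binary digits of two numbers side by side -/
def bits2 (m n : ℕ) : List (Bool × Bool) :=
  (m.bits ++ n.bits.map fun _ => false).zip (n.bits ++ m.bits.map fun _ => false)
theorem bits2_fst (m n : ℕ) : ofBits ((bits2 m n).map Prod.fst) = m := by
  rw [bits2, List.map_fst_zip (by simp; omega), ofBits_pad, ofBits_bits]
theorem bits2_snd (m n : ℕ) : ofBits ((bits2 m n).map Prod.snd) = n := by
  rw [bits2, List.map_snd_zip (by simp; omega), ofBits_pad, ofBits_bits]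
theorem PT.bits2 {m n : α → ℕ} (hm : PT m) (hn : PT n) : PT (fun a => bits2 (m a) (n a)) := by
  unfold CX.bits2; fun_prop
theorem size_map_fst (l : List (α × β)) : size (l.map Prod.fst) ≤ size l := by
  induction l with
  | nil => simp
  | cons a l ih => cases a; simp; omega
theorem size_map_snd (l : List (α × β)) : size (l.map Prod.snd) ≤ size l := by
  induction l with
  | nil => simp
  | cons a l ih => cases a; simp; omega

@[fun_prop] theorem PT.add {m n : α → ℕ} (hm : PT m) (hn : PT n) : PT (fun a => m a + n a) :=
  ((PT.listRec (f := fun (_ : Unit) (l : List (Bool × Bool)) => CX.ofBits (l.map Prod.fst) + CX.ofBits (l.map Prod.snd))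
    (F := fun _ x _ r => Nat.bit (Bool.xor x.1 x.2) (bif x.1 && x.2 then r + 1 else r)) (B := fun a => size a + size a)
    (by simp; fun_prop) (PT.bit (by fun_prop) (PT.cond (by fun_prop) (PT.succ' (by fun_prop)) (by fun_prop)))
    (fun _ ⟨x, y⟩ l => by cases x <;> cases y <;> simp [Nat.bit_val] <;> omega)
    (PB.size'.add PB.size') fun _ l => by
      have := size_ofBits (l.map Prod.fst); have := size_ofBits (l.map Prod.snd)
      have := size_map_fst l; have := size_map_snd l
      have := size_add_le (CX.ofBits (l.map Prod.fst)) (CX.ofBits (l.map Prod.snd)); simp only [size_pair]; omega).comp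
    ((PT.const ()).pair (hm.bits2 hn))).congr fun a => by simp only [bits2_fst, bits2_snd]

@[fun_prop] theorem PT.succ {n : α → ℕ} (hn : PT n) : PT (fun a => (n a).succ) := hn.succ'

@[fun_prop] theorem PT.sub {m n : α → ℕ} (hm : PT m) (hn : PT n) : PT (fun a => m a - n a) :=
  ((PT.listRec (f := fun (_ : Unit) (l : List (Bool × Bool)) => CX.ofBits (l.map Prod.fst) - CX.ofBits (l.map Prod.snd))
    (F := fun _ x l r => if r = 0 then
        (if CX.ofBits (l.map Prod.fst) = CX.ofBits (l.map Prod.snd) then Nat.bit (x.1 && !x.2) 0 else 0)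
      else bif !x.1 && x.2 then Nat.bit true (r - 1) else Nat.bit (x.1 && !x.2) r) (B := fun a => size a)
    (by simp; fun_prop) (PT.ite (by fun_prop) (by fun_prop)
      (PT.cond (by fun_prop) (PT.bit (by fun_prop) (PT.pred' (by fun_prop))) (by fun_prop)))
    (fun _ ⟨x, y⟩ l => by cases x <;> cases y <;> simp [Nat.bit_val] <;> split_ifs <;> omega)
    PB.size' fun _ l => by
      have := size_ofBits (l.map Prod.fst)
      have := size_map_fst l
      have := size_nat_mono (Nat.sub_le (CX.ofBits (l.map Prod.fst)) (CX.ofBits (l.map Prod.snd)))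
      simp only [size_pair]; omega).comp
    ((PT.const ()).pair (hm.bits2 hn))).congr fun a => by simp only [bits2_fst, bits2_snd]

section
variable {m n : α → ℕ}
@[fun_prop] theorem PT.decide_le {k : ∀ a, Decidable (m a ≤ n a)} (hm : PT m) (hn : PT n) :
    PT (fun a => @decide (m a ≤ n a) (k a)) :=
  PT.congr (g := fun a => decide (m a - n a = 0)) (by fun_prop) fun a => by simp [Nat.sub_eq_zero_iff_le]
@[fun_prop] theorem PT.decide_lt {k : ∀ a, Decidable (m a < n a)} (hm : PT m) (hn : PT n) :
    PT (fun a => @decide (m a < n a) (k a)) :=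
  PT.congr (g := fun a => decide (m a + 1 ≤ n a)) (by fun_prop) fun a => by simp [Nat.succ_le_iff]
@[fun_prop] theorem PT.decide_ge {k : ∀ a, Decidable (m a ≥ n a)} (hm : PT m) (hn : PT n) :
    PT (fun a => @decide (m a ≥ n a) (k a)) := PT.decide_le hn hm
@[fun_prop] theorem PT.decide_gt {k : ∀ a, Decidable (m a > n a)} (hm : PT m) (hn : PT n) :
    PT (fun a => @decide (m a > n a) (k a)) := PT.decide_lt hn hm
@[fun_prop] theorem PT.min (hm : PT m) (hn : PT n) : PT (fun a => min (m a) (n a)) :=
  PT.congr (g := fun a => if m a ≤ n a then m a else n a) (by fun_prop) fun a => min_def _ _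
@[fun_prop] theorem PT.max (hm : PT m) (hn : PT n) : PT (fun a => max (m a) (n a)) :=
  PT.congr (g := fun a => if m a ≤ n a then n a else m a) (by fun_prop) fun a => max_def _ _

@[fun_prop] theorem PT.mul (hm : PT m) (hn : PT n) : PT (fun a => m a * n a) :=
  ((PT.listRec (f := fun (m : ℕ) l => m * CX.ofBits l) (F := fun m x _ r => Nat.bit false r + bif x then m else 0)
    (B := fun a => size a) (by simp; fun_prop) (by fun_prop)
    (fun m x l => by cases x <;> simp [Nat.bit_val] <;> ring) PB.size' fun m l => by
      have := size_ofBits l; have := size_mul_le m (CX.ofBits l); simp only [size_pair]; omega).comp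
    (hm.pair hn.bits)).congr fun a => by simp

theorem div_bit (x : Bool) (A d : ℕ) : Nat.bit x A / d =
    if d ≠ 0 ∧ d * (2 * (A / d) + 1) ≤ Nat.bit x A then 2 * (A / d) + 1 else 2 * (A / d) := by
  rcases Nat.eq_zero_or_pos d with rfl | hd
  · simp
  have h1 := Nat.div_add_mod A d
  have h2 := Nat.mod_lt A hd
  have h3 : x.toNat ≤ 1 := Bool.toNat_le x
  rw [Nat.bit_val]
  split
  · rename_i h
    exact Nat.div_eq_of_lt_le (by nlinarith [h.2]) (by nlinarith)
  · rename_i h
    exact Nat.div_eq_of_lt_le (by nlinarith [Nat.zero_le (A % d), Nat.zero_le x.toNat]) (by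
      have : ¬ d * (2 * (A / d) + 1) ≤ 2 * A + x.toNat := fun h' => h ⟨hd.ne', h'⟩
      nlinarith)

@[fun_prop] theorem PT.div (hm : PT m) (hn : PT n) : PT (fun a => m a / n a) :=
  ((PT.listRec (f := fun (d : ℕ) l => CX.ofBits l / d)
    (F := fun d x l r => if d ≠ 0 ∧ d * (2 * r + 1) ≤ Nat.bit x (CX.ofBits l) then 2 * r + 1 else 2 * r)
    (B := fun a => size a) (by simp; fun_prop) (by fun_prop) (fun d x l => div_bit _ _ _) PB.size' fun d l => by
      have := size_ofBits l; have := size_nat_mono (Nat.div_le_self (CX.ofBits l) d); simp only [size_pair]; omega).comp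
    (hn.pair hm.bits)).congr fun a => by simp
@[fun_prop] theorem PT.mod (hm : PT m) (hn : PT n) : PT (fun a => m a % n a) :=
  PT.congr (g := fun a => m a - n a * (m a / n a)) (by fun_prop) fun a => Nat.mod_eq_sub _ _
@[fun_prop] theorem PT.decide_dvd {k : ∀ a, Decidable (m a ∣ n a)} (hm : PT m) (hn : PT n) :
    PT (fun a => @decide (m a ∣ n a) (k a)) :=
  PT.congr (g := fun a => decide (n a % m a = 0)) (by fun_prop) fun a => by simp [Nat.dvd_iff_mod_eq_zero]
@[fun_prop] theorem PT.decide_even {k : ∀ a, Decidable (Even (n a))} (hn : PT n) :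
    PT (fun a => @decide (Even (n a)) (k a)) :=
  PT.congr (g := fun a => decide (n a % 2 = 0)) (by fun_prop) fun a => by simp [Nat.even_iff]
@[fun_prop] theorem PT.decide_odd {k : ∀ a, Decidable (Odd (n a))} (hn : PT n) :
    PT (fun a => @decide (Odd (n a)) (k a)) :=
  PT.congr (g := fun a => decide (n a % 2 = 1)) (by fun_prop) fun a => by simp [Nat.odd_iff]
@[fun_prop] theorem PT.natPair (hm : PT m) (hn : PT n) : PT (fun a => Nat.pair (m a) (n a)) := by
  unfold Nat.pair; fun_prop
@[fun_prop] theorem PT.toNat {b : α → Bool} (hb : PT b) : PT (fun a => (b a).toNat) :=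
  PT.congr (g := fun a => bif b a then 1 else 0) (by fun_prop) fun a => by cases b a <;> rfl
@[fun_prop] theorem PT.powConst (hm : PT m) (k : ℕ) : PT (fun a => m a ^ k) := by
  induction k with
  | zero => simp; fun_prop
  | succ k ih => simp only [pow_succ]; exact ih.mul hm
@[fun_prop] theorem PT.eval (hm : PT m) (q : Polynomial ℕ) : PT (fun a => q.eval (m a)) := by
  induction q using Polynomial.induction_on' with
  | add p q hp hq => simp only [Polynomial.eval_add]; exact hp.add hq
  | monomial n c => simp only [Polynomial.eval_monomial]; fun_prop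

@[fun_prop] theorem PB.min_left (hm : PB m) : PB (fun a => min (m a) (n a)) := hm.mono fun _ => min_le_left _ _
@[fun_prop] theorem PB.min_right (hn : PB n) : PB (fun a => min (m a) (n a)) := hn.mono fun _ => min_le_right _ _
@[fun_prop] theorem PB.max (hm : PB m) (hn : PB n) : PB (fun a => max (m a) (n a)) := (hm.add hn).mono fun _ => by omega
@[fun_prop] theorem PB.div (hm : PB m) : PB (fun a => m a / n a) := hm.mono fun _ => Nat.div_le_self _ _
@[fun_prop] theorem PB.mod (hm : PB m) : PB (fun a => m a % n a) := hm.mono fun _ => Nat.mod_le _ _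
@[fun_prop] theorem PB.natSize (hm : PT m) : PB (fun a => (m a).size) :=
  (PB.size hm).mono fun _ => by rw [size_nat]; omega
end

@[fun_prop] theorem PT.length {l : α → List β} (hl : PT l) : PT (fun a => (l a).length) :=
  (PT.listRec (f := fun (_ : Unit) (l : List β) => l.length) (F := fun _ _ _ r => r + 1) (B := fun a => 3 * size a + 2)
    (by simp; fun_prop) (by fun_prop) (by simp) (by fun_prop) fun _ l => by
      have := size_nat_le l.length; have := length_le_size l; simp; omega).comp ((PT.const ()).pair hl)
@[fun_prop] theorem PT.size {f : α → β} (hf : PT f) : PT (fun a => size (f a)) := hf.enc.length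
@[fun_prop] theorem PT.natSize {f : α → ℕ} (hf : PT f) : PT (fun a => (f a).size) :=
  hf.bits.length.congr fun a => by rw [Nat.size_eq_bits_len]

theorem size_sum (l : List ℕ) : size l.sum ≤ size l := by
  induction l with
  | nil => rfl
  | cons a l ih => have := size_add_le a l.sum; simp; omega
@[fun_prop] theorem PT.sum {l : α → List ℕ} (hl : PT l) : PT (fun a => (l a).sum) :=
  (PT.listRec (f := fun (_ : Unit) (l : List ℕ) => l.sum) (F := fun _ x _ r => x + r) (B := fun a => CX.size a)
    (by simp; fun_prop) (by fun_prop) (by simp) (by fun_prop) fun _ l => by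
      have := size_sum l; simp; omega).comp ((PT.const ()).pair hl)
theorem size_prod (l : List ℕ) : size l.prod ≤ size l + 3 := by
  induction l with
  | nil => rfl
  | cons a l ih => have := size_mul_le a l.prod; simp; omega
@[fun_prop] theorem PT.prod {l : α → List ℕ} (hl : PT l) : PT (fun a => (l a).prod) :=
  (PT.listRec (f := fun (_ : Unit) (l : List ℕ) => l.prod) (F := fun _ x _ r => x * r) (B := fun a => CX.size a + 3)
    (by simp; fun_prop) (by fun_prop) (by simp) (by fun_prop) fun _ l => by
      have := size_prod l; simp; omega).comp ((PT.const ()).pair hl)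

@[fun_prop] theorem PT.countP {F : α → β → Bool} {l : α → List β} (hF : PT fun p : α × β => F p.1 p.2) (hl : PT l) :
    PT (fun a => (l a).countP (F a)) := (hF.filter hl).length.congr fun a => List.countP_eq_length_filter
@[fun_prop] theorem PT.count [BEq β] [LawfulBEq β] {x : α → β} {l : α → List β} (hx : PT x) (hl : PT l) :
    PT (fun a => (l a).count (x a)) := by unfold List.count; fun_prop
@[fun_prop] theorem PB.countP {F : α → β → Bool} {l : α → List β} (hl : PT l) : PB (fun a => (l a).countP (F a)) :=
  (PB.length hl).mono fun _ => List.countP_le_length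
@[fun_prop] theorem PB.count [BEq β] {x : α → β} {l : α → List β} (hl : PT l) : PB (fun a => (l a).count (x a)) :=
  (PB.length hl).mono fun _ => List.count_le_length

@[fun_prop] theorem PT.range {n : α → ℕ} (hn : PT n) (hb : PB n) : PT (fun a => List.range (n a)) := by
  let g : ℕ × List ℕ → ℕ × List ℕ := fun s => (s.1, s.2 ++ [s.2.length])
  have e : ∀ m j, g^[j] (m, []) = (m, List.range j) := fun m j => by
    induction j with
    | zero => rfl
    | succ j ih => rw [iterate_succ_apply', ih]; simp [g, List.range_succ]
  exact (PT.loop (g := g) (c := fun s => decide (s.2.length < s.1)) (i := fun a => (n a, []))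
    (f := fun a => (n a, List.range (n a))) (B := fun a => n a + CX.size (n a) + n a * (3 * n a + 3) + 3)
    (by fun_prop) (by fun_prop) (by fun_prop) (by fun_prop) fun a =>
      ⟨n a, by omega, fun j hj => by simpa [e], by simp [e], by simp [e], fun j hj => by
        have := size_list_le (l := List.range j) (B := 3 * n a + 2) fun x hx =>
          (size_nat_le x).trans (by have := List.mem_range.1 hx; omega)
        have h2 : j * (3 * n a + 2 + 1) ≤ n a * (3 * n a + 3) := Nat.mul_le_mul_right _ hj
        rw [List.length_range] at this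
        rw [e, size_pair]; omega⟩).snd

@[fun_prop] theorem PT.replicate {n : α → ℕ} {x : α → β} (hn : PT n) (hb : PB n) (hx : PT x) :
    PT (fun a => List.replicate (n a) (x a)) :=
  PT.congr (g := fun a => (List.range (n a)).map fun _ => x a) (by fun_prop) fun a => by simp
@[fun_prop] theorem PT.range' {m n : α → ℕ} (hm : PT m) (hn : PT n) (hb : PB n) :
    PT (fun a => List.range' (m a) (n a)) :=
  PT.congr (g := fun a => (List.range (n a)).map fun i => m a + i) (by fun_prop) fun a => by
    rw [List.range'_eq_map_range]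
@[fun_prop] theorem PT.pow {m n : α → ℕ} (hm : PT m) (hn : PT n) (hb : PB n) : PT (fun a => m a ^ n a) :=
  PT.congr (g := fun a => (List.replicate (n a) (m a)).prod) (by fun_prop) fun a => by simp

/-- iterate a function a polynomially bounded number of times, with polynomially bounded states -/
theorem PT.iterate {F : α → σ → σ} {i : α → σ} {n B : α → ℕ} (hF : PT fun p : α × σ => F p.1 p.2) (hi : PT i)
    (hn : PT n) (hb : PB n) (hB : PB B) (h : ∀ a, ∀ k ≤ n a, CX.size ((F a)^[k] (i a)) ≤ B a) :
    PT (fun a => (F a)^[n a] (i a)) := by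
  have e : ∀ a (l : List ℕ), l.foldl (fun s _ => F a s) (i a) = (F a)^[l.length] (i a) := fun a l => by
    induction l using List.reverseRecOn with
    | nil => rfl
    | append_singleton l x ih => simp [ih, iterate_succ_apply', -iterate_succ]
  exact (PT.foldl (F := fun a s (_ : ℕ) => F a s) (l := fun a => List.range (n a))
    (hF.comp (g := fun p : α × σ × ℕ => (p.1, p.2.1)) (by fun_prop)) hi (by fun_prop) hB fun a k => by
      rw [e]; exact h a _ (by simp)).congr fun a => by simp [e]

@[fun_prop] theorem PT.drop {n : α → ℕ} {l : α → List β} (hn : PT n) (hl : PT l) : PT (fun a => (l a).drop (n a)) := by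
  have e : ∀ (l : List β) k, List.tail^[k] l = l.drop k := fun l k => by
    induction k with
    | zero => rfl
    | succ k ih => rw [iterate_succ_apply', ih, List.tail_drop]
  exact (PT.iterate (F := fun _ (s : List β) => s.tail) (i := l) (n := fun a => Min.min (n a) (l a).length)
    (B := fun a => CX.size (l a)) (by fun_prop) hl (by fun_prop) (by fun_prop) (by fun_prop) fun a k _ => by
      rw [e]; exact size_sublist (List.drop_sublist _ _)).congr fun a => by
    rw [e]; rcases le_total (n a) (l a).length with h | h
    · rw [min_eq_left h]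
    · rw [min_eq_right h, List.drop_eq_nil_of_le h, List.drop_length]
@[fun_prop] theorem PT.take {n : α → ℕ} {l : α → List β} (hn : PT n) (hl : PT l) : PT (fun a => (l a).take (n a)) :=
  PT.congr (g := fun a => ((l a).reverse.drop ((l a).length - n a)).reverse) (by fun_prop) fun a => by
    rw [List.drop_reverse, List.reverse_reverse]
    rcases le_total (n a) (l a).length with h | h
    · congr 1; omega
    · rw [List.take_of_length_le h, List.take_of_length_le (by omega)]
@[fun_prop] theorem PT.getElem? {n : α → ℕ} {l : α → List β} (hl : PT l) (hn : PT n) : PT (fun a => (l a)[n a]?) :=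
  (hn.drop hl).head?.congr fun a => by simp
@[fun_prop] theorem PT.getD {n : α → ℕ} {l : α → List β} {d : α → β} (hl : PT l) (hn : PT n) (hd : PT d) :
    PT (fun a => (l a).getD (n a) (d a)) := (hl.getElem? hn).ogetD hd
@[fun_prop] theorem PT.getLast? {l : α → List β} (hl : PT l) : PT (fun a => (l a).getLast?) :=
  hl.reverse.head?.congr fun a => by simp
@[fun_prop] theorem PT.getLastD {l : α → List β} {d : α → β} (hl : PT l) (hd : PT d) :
    PT (fun a => (l a).getLastD (d a)) := (hl.getLast?.ogetD hd).congr fun a => by simp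
@[fun_prop] theorem PT.dropLast {l : α → List β} (hl : PT l) : PT (fun a => (l a).dropLast) :=
  PT.congr (g := fun a => (l a).take ((l a).length - 1)) (by fun_prop) fun a => List.dropLast_eq_take
@[fun_prop] theorem PT.set {n : α → ℕ} {l : α → List β} {x : α → β} (hl : PT l) (hn : PT n) (hx : PT x) :
    PT (fun a => (l a).set (n a) (x a)) :=
  PT.congr (g := fun a => if n a < (l a).length then (l a).take (n a) ++ x a :: (l a).drop (n a + 1) else l a)
    (by fun_prop) fun a => List.set_eq_take_append_cons_drop
@[fun_prop] theorem PT.zipIdx {l : α → List β} (hl : PT l) : PT (fun a => (l a).zipIdx) :=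
  PT.congr (g := fun a => (l a).zip (List.range (l a).length)) (by fun_prop) fun a => by
    rw [List.zipIdx_eq_zip_range', List.range_eq_range']
@[fun_prop] theorem PT.mapIdx {F : α → ℕ → β → γ} {l : α → List β} (hF : PT fun p : α × ℕ × β => F p.1 p.2.1 p.2.2)
    (hl : PT l) : PT (fun a => (l a).mapIdx (F a)) :=
  (PT.map (F := fun a (x : β × ℕ) => F a x.2 x.1) (hF.comp (g := fun p : α × β × ℕ => (p.1, p.2.2, p.2.1)) (by fun_prop))
    hl.zipIdx).congr fun a => List.mapIdx_eq_zipIdx_map
@[fun_prop] theorem PT.findIdx {F : α → β → Bool} {l : α → List β} (hF : PT fun p : α × β => F p.1 p.2) (hl : PT l) :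
    PT (fun a => (l a).findIdx (F a)) :=
  (PT.listRec (f := fun a (l : List β) => l.findIdx (F a)) (F := fun a x _ r => bif F a x then 0 else r + 1)
    (B := fun a => 3 * CX.size a + 2) (by simp; fun_prop)
    (PT.cond (hF.comp (g := fun p : α × β × List β × ℕ => (p.1, p.2.1)) (by fun_prop)) (by fun_prop) (by fun_prop))
    (fun _ _ _ => List.findIdx_cons) (by fun_prop) fun a l => by
      have := size_nat_le (l.findIdx (F a)); have := length_le_size l
      have := List.findIdx_le_length (p := F a) (xs := l); simp; omega).comp (PT.id.pair hl)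
@[fun_prop] theorem PT.idxOf [BEq β] [LawfulBEq β] {x : α → β} {l : α → List β} (hx : PT x) (hl : PT l) :
    PT (fun a => (l a).idxOf (x a)) := by unfold List.idxOf; fun_prop
@[fun_prop] theorem PB.findIdx {F : α → β → Bool} {l : α → List β} (hl : PT l) : PB (fun a => (l a).findIdx (F a)) :=
  (PB.length hl).mono fun _ => List.findIdx_le_length
@[fun_prop] theorem PB.idxOf [BEq β] {x : α → β} {l : α → List β} (hl : PT l) : PB (fun a => (l a).idxOf (x a)) :=
  (PB.length hl).mono fun _ => List.findIdx_le_length
@[fun_prop] theorem PT.erase [BEq β] [LawfulBEq β] {x : α → β} {l : α → List β} (hl : PT l) (hx : PT x) :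
    PT (fun a => (l a).erase (x a)) :=
  (PT.listRec (f := fun (x : β) (l : List β) => l.erase x) (F := fun x y l r => if y == x then l else y :: r)
    (B := fun a => CX.size a) (by simp; fun_prop) (by fun_prop) (fun _ _ _ => List.erase_cons) (by fun_prop) fun a l => by
      have : CX.size (l.erase a) ≤ CX.size l := size_sublist List.erase_sublist; simp; omega).comp (hx.pair hl)
@[fun_prop] theorem PT.testBit {m n : α → ℕ} (hm : PT m) (hn : PT n) : PT (fun a => (m a).testBit (n a)) :=
  PT.congr (g := fun a => (m a).bits.getD (n a) false) (by fun_prop) fun a => by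
    rw [Nat.testBit_eq_inth]; simp [List.getI_eq_getElem?_getD]
@[fun_prop] theorem PT.decide_forall_lt {P : α → ℕ → Prop} {n : α → ℕ} {i : ∀ a x, Decidable (P a x)}
    {k : ∀ a, Decidable (∀ x < n a, P a x)} (hP : PT fun p : α × ℕ => @decide (P p.1 p.2) (i p.1 p.2)) (hn : PT n)
    (hb : PB n) : PT (fun a => @decide (∀ x < n a, P a x) (k a)) :=
  (PT.all (F := fun a x => @decide (P a x) (i a x)) hP (hn.range hb)).congr fun a => by rw [Bool.eq_iff_iff]; simp
@[fun_prop] theorem PT.decide_exists_lt {P : α → ℕ → Prop} {n : α → ℕ} {i : ∀ a x, Decidable (P a x)}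
    {k : ∀ a, Decidable (∃ x < n a, P a x)} (hP : PT fun p : α × ℕ => @decide (P p.1 p.2) (i p.1 p.2)) (hn : PT n)
    (hb : PB n) : PT (fun a => @decide (∃ x < n a, P a x) (k a)) :=
  (PT.any (F := fun a x => @decide (P a x) (i a x)) hP (hn.range hb)).congr fun a => by rw [Bool.eq_iff_iff]; simp

section int
variable {x y : α → ℤ}
theorem PT.signAbs (hx : PT x) : PT (fun a => (decide (x a < 0), (x a).natAbs)) := hx.cast fun _ => rfl
@[fun_prop] theorem PT.natAbs (hx : PT x) : PT (fun a => (x a).natAbs) := hx.signAbs.snd
@[fun_prop] theorem PT.natCast {n : α → ℕ} (hn : PT n) : PT (fun a => (n a : ℤ)) :=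
  ((PT.const false).pair hn).cast fun a => by
    change Enc.tr (decide ((n a : ℤ) < 0), (n a : ℤ).natAbs) = _
    rw [decide_eq_false (by omega)]; rfl
@[fun_prop] theorem PT.neg (hx : PT x) : PT (fun a => -x a) :=
  ((hx.signAbs.fst.not.and (PT.decide_ne (k := fun _ => inferInstance) hx (.const 0))).pair hx.natAbs).cast fun a => by
    change Enc.tr (decide (-x a < 0), (-x a).natAbs) = _
    congr 2
    · rw [Bool.eq_iff_iff]; simp; omega
    · simp
@[fun_prop] theorem PT.itoNat (hx : PT x) : PT (fun a => (x a).toNat) :=
  (hx.signAbs.fst.cond (.const 0) hx.natAbs).congr fun a => by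
    by_cases h : x a < 0 <;> simp [h] <;> omega
@[fun_prop] theorem PT.iadd (hx : PT x) (hy : PT y) : PT (fun a => x a + y a) :=
  PT.congr (g := fun a => if (-x a).toNat + (-y a).toNat ≤ (x a).toNat + (y a).toNat then
    (((x a).toNat + (y a).toNat - ((-x a).toNat + (-y a).toNat) : ℕ) : ℤ)
    else -(((-x a).toNat + (-y a).toNat - ((x a).toNat + (y a).toNat) : ℕ) : ℤ)) (by fun_prop) fun a => by
      split <;> omega
@[fun_prop] theorem PT.isub (hx : PT x) (hy : PT y) : PT (fun a => x a - y a) :=
  (hx.iadd hy.neg).congr fun a => sub_eq_add_neg _ _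
@[fun_prop] theorem PT.imul (hx : PT x) (hy : PT y) : PT (fun a => x a * y a) :=
  ((hx.signAbs.fst.xor hy.signAbs.fst).cond (hx.natAbs.mul hy.natAbs).natCast.neg
    (hx.natAbs.mul hy.natAbs).natCast).congr fun a => by
    by_cases h : x a < 0 <;> by_cases h' : y a < 0 <;> simp [h, h', abs_of_neg, abs_of_nonneg, not_lt.1]
@[fun_prop] theorem PT.idecide_lt {k : ∀ a, Decidable (x a < y a)} (hx : PT x) (hy : PT y) :
    PT (fun a => @decide (x a < y a) (k a)) := (hx.isub hy).signAbs.fst.congr fun a => by simp
@[fun_prop] theorem PT.idecide_le {k : ∀ a, Decidable (x a ≤ y a)} (hx : PT x) (hy : PT y) :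
    PT (fun a => @decide (x a ≤ y a) (k a)) :=
  (PT.idecide_lt (k := fun _ => inferInstance) hy hx).not.congr fun a => by rw [Bool.eq_iff_iff]; simp
@[fun_prop] theorem PT.iabs (hx : PT x) : PT (fun a => |x a|) := hx.natAbs.natCast.congr fun a => by simp
theorem size_int (z : ℤ) : size z = size z.natAbs + 3 := by
  change size (decide (z < 0), z.natAbs) = _
  simp; omega
theorem size_isum (l : List ℤ) : size l.sum ≤ size l + 3 := by
  induction l with
  | nil => rfl
  | cons a l ih =>
    have := (size_nat_mono (Int.natAbs_add_le a l.sum)).trans (size_add_le _ _)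
    simp [size_int] at *; omega
@[fun_prop] theorem PT.isum {l : α → List ℤ} (hl : PT l) : PT (fun a => (l a).sum) :=
  (PT.listRec (f := fun (_ : Unit) (l : List ℤ) => l.sum) (F := fun _ x _ r => x + r) (B := fun a => CX.size a + 3)
    (by simp; fun_prop) (by fun_prop) (by simp) (by fun_prop) fun _ l => by
      have := size_isum l; simp; omega).comp ((PT.const ()).pair hl)
end int

end Pool.Agent.H46.CX
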