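import Pool.Agent.H46.CX.CXCore

/-! Closure properties of polynomial time. -/

namespace Pool.Agent.H46.CX

open Function Polynomial

variable {α β γ δ σ : Type} [Enc α] [Enc β] [Enc γ] [Enc δ] [Enc σ]

theorem eval_mono (q : Polynomial ℕ) {a b : ℕ} (h : a ≤ b) : q.eval a ≤ q.eval b := by
  induction q using Polynomial.induction_on' with
  | add p q hp hq => simp only [eval_add]; omega
  | monomial n c => simp only [eval_monomial]; exact Nat.mul_le_mul_left _ (Nat.pow_le_pow_left h _)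

/-- polynomially bounded in the size of the input -/
@[fun_prop] def PB (f : α → ℕ) : Prop := ∃ q : Polynomial ℕ, ∀ a, f a ≤ q.eval (size a)

attribute [fun_prop] PT

theorem PB.mono {f g : α → ℕ} (h : PB g) (e : ∀ a, f a ≤ g a) : PB f :=
  let ⟨q, hq⟩ := h; ⟨q, fun a => (e a).trans (hq a)⟩
@[fun_prop] theorem PB.const (c : ℕ) : PB (fun _ : α => c) := ⟨C c, by simp⟩
theorem PB.size' : PB (fun a : α => size a) := ⟨Polynomial.X, by simp⟩
@[fun_prop] theorem PB.add {f g : α → ℕ} (hf : PB f) (hg : PB g) : PB (fun a => f a + g a) :=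
  let ⟨p, hp⟩ := hf; let ⟨q, hq⟩ := hg; ⟨p + q, fun a => by simpa using Nat.add_le_add (hp a) (hq a)⟩
@[fun_prop] theorem PB.mul {f g : α → ℕ} (hf : PB f) (hg : PB g) : PB (fun a => f a * g a) :=
  let ⟨p, hp⟩ := hf; let ⟨q, hq⟩ := hg; ⟨p * q, fun a => by simpa using Nat.mul_le_mul (hp a) (hq a)⟩
@[fun_prop] theorem PB.pow {f : α → ℕ} (hf : PB f) (k : ℕ) : PB (fun a => f a ^ k) :=
  let ⟨p, hp⟩ := hf; ⟨p ^ k, fun a => by simpa using Nat.pow_le_pow_left (hp a) k⟩
@[fun_prop] theorem PB.sub {f g : α → ℕ} (hf : PB f) : PB (fun a => f a - g a) := hf.mono fun _ => Nat.sub_le _ _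
@[fun_prop] theorem PB.eval {f : α → ℕ} (hf : PB f) (q : Polynomial ℕ) : PB (fun a => q.eval (f a)) :=
  let ⟨p, hp⟩ := hf; ⟨q.comp p, fun a => by simpa [eval_comp] using eval_mono q (hp a)⟩

theorem PT_iff {f : α → β} : PT f ↔ ∃ p N, PB N ∧ ∀ a, R p (enc a) (enc (f a)) (N a) := by
  constructor
  · rintro ⟨p, q, h⟩
    refine ⟨p, fun a => q.eval (size a), ⟨q, fun _ => le_rfl⟩, fun a => ?_⟩
    obtain ⟨n, m, hn, h⟩ := h a
    exact ⟨n, hn, m, by simpa [io_eq] using h⟩
  · rintro ⟨p, N, ⟨q, hq⟩, h⟩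
    refine ⟨p, q, fun a => ?_⟩
    obtain ⟨n, hn, m, h⟩ := h a
    exact ⟨n, m, hn.trans (hq a), by simpa [io_eq] using h⟩

@[fun_prop] theorem PB.size {f : α → β} (hf : PT f) : PB (fun a => size (f a)) := by
  obtain ⟨p, N, hN, h⟩ := PT_iff.1 hf
  exact (PB.size'.add hN).mono fun a => (h a).len

theorem PB.comp {f : β → ℕ} {g : α → β} (hf : PB f) (hg : PT g) : PB (fun a => f (g a)) :=
  let ⟨q, hq⟩ := hf; ((PB.size hg).eval q).mono fun a => hq (g a)

theorem PT.cast {f : α → β} {g : α → γ} (hg : PT g) (e : ∀ a, Enc.tr (f a) = Enc.tr (g a)) : PT f := by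
  obtain ⟨p, N, hN, h⟩ := PT_iff.1 hg
  exact PT_iff.2 ⟨p, N, hN, fun a => by simpa [enc, e] using h a⟩

theorem PT.congr {f g : α → β} (hg : PT g) (e : ∀ a, f a = g a) : PT f := hg.cast fun a => by rw [e]

@[fun_prop] theorem PT.id : PT (fun a : α => a) := PT_iff.2 ⟨_, _, PB.const 3, fun a => R.skip _⟩

@[fun_prop] theorem PT.const (b : β) : PT (fun _ : α => b) :=
  PT_iff.2 ⟨_, fun a => 2 * size a + 2 * size b + 5, by have := PB.size' (α := α); fun_prop, fun a => R.const _ _⟩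

@[fun_prop] theorem PT.comp {f : β → γ} {g : α → β} (hf : PT f) (hg : PT g) : PT (fun a => f (g a)) := by
  obtain ⟨p, N, hN, h⟩ := PT_iff.1 hf
  obtain ⟨q, K, hK, h'⟩ := PT_iff.1 hg
  exact PT_iff.2 ⟨_, _, (hK.add (hN.comp hg)).add (PB.const 1), fun a => (h' a).seq (h (g a))⟩

@[fun_prop] theorem PT.pair {f : α → β} {g : α → γ} (hf : PT f) (hg : PT g) : PT (fun a => (f a, g a)) := by
  obtain ⟨p, N, hN, h⟩ := PT_iff.1 hf
  obtain ⟨q, K, hK, h'⟩ := PT_iff.1 hg
  exact PT_iff.2 ⟨_, fun a => 45 * size a + 11 * N a + 11 * K a + 20, by have := PB.size' (α := α); fun_prop,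
    fun a => (h a).pair (h' a)⟩

theorem PT.fst' : PT (fun a : α × β => a.1) :=
  PT_iff.2 ⟨_, fun a => 12 * size a + 10, by have := PB.size' (α := α × β); fun_prop, fun a => R.fst _ _⟩
theorem PT.snd' : PT (fun a : α × β => a.2) :=
  PT_iff.2 ⟨_, fun a => 12 * size a + 10, by have := PB.size' (α := α × β); fun_prop, fun a => R.snd _ _⟩
@[fun_prop] theorem PT.fst {f : α → β × γ} (hf : PT f) : PT (fun a => (f a).1) := PT.fst'.comp hf
@[fun_prop] theorem PT.snd {f : α → β × γ} (hf : PT f) : PT (fun a => (f a).2) := PT.snd'.comp hf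

@[fun_prop] theorem PT.tr {f : α → β} (hf : PT f) : PT (fun a => Enc.tr (f a)) := hf.cast fun _ => rfl
@[fun_prop] theorem PT.val {P : β → Prop} {f : α → Subtype P} (hf : PT f) : PT (fun a => (f a).1) :=
  hf.cast fun _ => rfl
theorem PT.subtype {P : β → Prop} {f : α → β} (hf : PT f) (h : ∀ a, P (f a)) :
    PT (fun a => (⟨f a, h a⟩ : Subtype P)) := hf.cast fun _ => rfl

def Tr.left : Tr → Tr
  | .leaf b => .leaf b
  | .node l _ => l
def Tr.right : Tr → Tr
  | .leaf b => .leaf b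
  | .node _ r => r
def Tr.isNode : Tr → Bool
  | .leaf _ => false
  | .node _ _ => true
def Tr.val : Tr → Bool
  | .leaf b => b
  | .node _ _ => false

@[fun_prop] theorem PT.left : PT Tr.left :=
  PT_iff.2 ⟨.ite 0 fstP (pushes 0 []), fun a => 12 * size a + 11, by have := PB.size' (α := Tr); fun_prop, fun a => by
    cases a with
    | leaf b => exact (R.iteF (by simp [enc, Enc.tr, Tr.code]) (R.skip _)).mono (by beta_reduce; omega)
    | node l r => exact R.iteT rfl (R.fst l r)⟩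
@[fun_prop] theorem PT.right : PT Tr.right :=
  PT_iff.2 ⟨.ite 0 sndP (pushes 0 []), fun a => 12 * size a + 11, by have := PB.size' (α := Tr); fun_prop, fun a => by
    cases a with
    | leaf b => exact (R.iteF (by simp [enc, Enc.tr, Tr.code]) (R.skip _)).mono (by beta_reduce; omega)
    | node l r => exact R.iteT rfl (R.snd l r)⟩
@[fun_prop] theorem PT.isNode : PT Tr.isNode :=
  PT_iff.2 ⟨.ite 0 (constP [false, true]) (constP [false, false]), fun a => 2 * size a + 10,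
    by have := PB.size' (α := Tr); fun_prop, fun a => by
    cases a with
    | leaf b => exact R.iteF (by simp [enc, Enc.tr, Tr.code]) (R.const _ _)
    | node l r => exact R.iteT rfl (R.const _ _)⟩
@[fun_prop] theorem PT.tval : PT Tr.val :=
  PT_iff.2 ⟨.ite 0 (constP [false, false]) (pushes 0 []), fun a => 2 * size a + 10,
    by have := PB.size' (α := Tr); fun_prop, fun a => by
    cases a with
    | leaf b => exact (R.iteF (by simp [enc, Enc.tr, Tr.code]) (R.skip _)).mono (by beta_reduce; omega)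
    | node l r => exact R.iteT rfl (R.const _ _)⟩
@[fun_prop] theorem PT.node {f g : α → Tr} (hf : PT f) (hg : PT g) : PT (fun a => Tr.node (f a) (g a)) :=
  (hf.pair hg).cast fun _ => rfl
@[fun_prop] theorem PT.leaf {f : α → Bool} (hf : PT f) : PT (fun a => Tr.leaf (f a)) := hf.cast fun _ => rfl

theorem size_pair (a : α) (b : β) : size (a, b) = size a + size b + 1 := by
  simp [size, enc, Enc.tr, Tr.code]

theorem PT.cond' : PT (fun a : Bool × α × α => cond a.1 a.2.1 a.2.2) :=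
  PT_iff.2 ⟨.seq (.pop 0) (.seq (.pop 0) (.ite 0 (.seq (.pop 0) fstP) (.seq (.pop 0) sndP))),
    fun a => 12 * size a + 20, by have := PB.size' (α := Bool × α × α); fun_prop, fun ⟨b, x, y⟩ => by
    have : (Tr.node (Enc.tr x) (Enc.tr y)).code.length ≤ size (b, x, y) := by
      rw [size_pair]; exact Nat.le_succ_of_le (Nat.le_add_left _ _)
    cases b
    · exact ((R.pop _ _).seq ((R.pop _ _).seq (R.iteF (by simp) ((R.pop _ _).seq
        (R.snd (Enc.tr x) (Enc.tr y)))))).mono (by beta_reduce; omega)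
    · exact ((R.pop _ _).seq ((R.pop _ _).seq (R.iteT (by simp) ((R.pop _ _).seq
        (R.fst (Enc.tr x) (Enc.tr y)))))).mono (by beta_reduce; omega)⟩

@[fun_prop] theorem PT.cond {c : α → Bool} {f g : α → β} (hc : PT c) (hf : PT f) (hg : PT g) :
    PT (fun a => cond (c a) (f a) (g a)) := PT.cond'.comp (hc.pair (hf.pair hg))

@[fun_prop] theorem PT.ite {c : α → Prop} {i : ∀ a, Decidable (c a)} {f g : α → β}
    (hc : PT (fun a => @decide (c a) (i a))) (hf : PT f) (hg : PT g) :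
    PT (fun a => @ite _ (c a) (i a) (f a) (g a)) := (hc.cond hf hg).congr fun a => by simp

@[fun_prop] theorem PT.enc {f : α → β} (hf : PT f) : PT (fun a => enc (f a)) :=
  (PT_iff.2 ⟨codeP, fun a => 18 * size a + 12, by have := PB.size' (α := β); fun_prop, fun a => R.code _⟩ :
    PT (fun b : β => CX.enc b)).comp hf

theorem loop_exec {p : Prog} {g : σ → σ} {c : σ → Bool} {N : σ → ℕ} {B H : ℕ} (hH : 1 ≤ H)
    (h : ∀ s, R p (enc s) (enc (c s, cond (c s) (g s) s)) (N s)) :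
    ∀ k s, (∀ j < k, c (g^[j] s) = true) → c (g^[k] s) = false → (∀ j ≤ k, N (g^[j] s) ≤ B ∧ size (g^[j] s) ≤ H) →
      ∃ n ≤ (k + 1) * (B + 13), Exec (.loop 0 (bodyP p)) (st [[true], enc s]) (st [[], enc (g^[k] s)]) n (H + B + 11) := by
  have key : ∀ s, N s ≤ B → size s ≤ H → ∃ n ≤ B + 11, Exec (bodyP p) (st [[true], enc s])
      (st [if c s then [true] else [], enc (cond (c s) (g s) s)]) n (H + B + 11) := fun s hN hs => by
    obtain ⟨n, hn, m, e⟩ := X.body (b := c s) (y := enc (cond (c s) (g s) s)) (h s)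
    refine ⟨n, by omega, (e.space H fun i => ?_).1.mono (by omega)⟩
    rcases i with _ | _ | i
    · simpa
    · simpa
    · simp
  intro k
  induction k with
  | zero =>
    intro s _ h0 h1
    obtain ⟨n, hn, e⟩ := key s (h1 0 le_rfl).1 (h1 0 le_rfl).2
    simp at h0
    simp [h0] at e
    exact ⟨n + 1 + 1, by omega, .loopS (by simp) e (.loop0 rfl)⟩
  | succ k ih =>
    intro s h2 h0 h1
    obtain ⟨n, hn, e⟩ := key s (h1 0 (by omega)).1 (h1 0 (by omega)).2
    have h3 : c s = true := h2 0 (by omega)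
    simp [h3] at e
    obtain ⟨n', hn', e'⟩ := ih (g s) (fun j hj => h2 (j + 1) (by omega)) h0 (fun j hj => h1 (j + 1) (by omega))
    exact ⟨n + n' + 1, by nlinarith, .loopS (by simp) e e'⟩

/-- a while loop with polynomially many rounds and polynomially bounded states -/
theorem PT.loop {g : σ → σ} {c : σ → Bool} {i f : α → σ} {B : α → ℕ} (hg : PT g) (hc : PT c) (hi : PT i) (hB : PB B)
    (h : ∀ a, ∃ k ≤ B a, (∀ j < k, c (g^[j] (i a)) = true) ∧ c (g^[k] (i a)) = false ∧ f a = g^[k] (i a) ∧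
      ∀ j ≤ k, size (g^[j] (i a)) ≤ B a) : PT f := by
  obtain ⟨p, q, hq⟩ := hc.pair (hc.cond hg PT.id)
  obtain ⟨p0, N0, hN0, h0⟩ := PT_iff.1 hi
  refine PT_iff.2 ⟨.seq p0 (.seq preP (.seq (.loop 0 (bodyP p)) postP)),
    fun a => N0 a + (B a + 1) * (q.eval (B a) + 13) + 20 * B a + 13, by fun_prop, fun a => ?_⟩
  obtain ⟨k, hk, h1, h2, h3, h4⟩ := h a
  obtain ⟨n, hn, e⟩ := loop_exec (p := p) (N := fun s => q.eval (size s)) (B := q.eval (B a)) (H := B a + 1) (by omega)
    (fun s => by obtain ⟨n, m, hn, e⟩ := hq s; exact ⟨n, hn, m, by simpa [io_eq] using e⟩) k (i a) h1 h2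
    (fun j hj => ⟨eval_mono q (h4 j hj), (h4 j hj).trans (by omega)⟩)
  have e' : X _ _ _ n := ⟨n, le_rfl, _, e⟩
  have l1 := h4 0 (by omega)
  have l2 := h4 k le_rfl
  rw [h3]
  refine X.mono ((h0 a).seq ((X.pre _).seq (e'.seq (X.post _)))) ?_
  have : (k + 1) * (q.eval (B a) + 13) ≤ (B a + 1) * (q.eval (B a) + 13) := Nat.mul_le_mul_right _ (by omega)
  simp only [size, iterate_zero, _root_.id] at l1 l2
  beta_reduce
  omega

theorem Exec.of_X {p x y N} (h : R p x y N) : ∃ n, Exec p (st [x]) (st [y]) n (x.length + N) := by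
  obtain ⟨n, hn, m, e⟩ := h
  exact ⟨n, (e.space x.length fun i => by rcases i with _ | i <;> simp).1.mono (by omega)⟩

theorem PSp_iff {f : α → β} : PSp f ↔ ∃ p N, PB N ∧ ∀ a, ∃ n, Exec p (st [enc a]) (st [enc (f a)]) n (N a) := by
  constructor
  · rintro ⟨p, q, h⟩
    exact ⟨p, fun a => q.eval (size a), ⟨q, fun _ => le_rfl⟩, fun a => by simpa [io_eq] using h a⟩
  · rintro ⟨p, N, ⟨q, hq⟩, h⟩
    refine ⟨p, q, fun a => ?_⟩
    obtain ⟨n, h⟩ := h a
    exact ⟨n, by simpa [io_eq] using h.mono (hq a)⟩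

theorem PT.psp {f : α → β} (hf : PT f) : PSp f := by
  obtain ⟨p, N, hN, h⟩ := PT_iff.1 hf
  exact PSp_iff.2 ⟨p, _, PB.size'.add hN, fun a => Exec.of_X (h a)⟩

/-- a while loop with polynomially bounded states, followed by a polynomial-time output map -/
theorem PSp.loop {g : σ → σ} {c : σ → Bool} {i : α → σ} {o : σ → β} {f : α → β} {B : α → ℕ} (hg : PT g) (hc : PT c)
    (hi : PT i) (ho : PT o) (hB : PB B)
    (h : ∀ a, ∃ k, (∀ j < k, c (g^[j] (i a)) = true) ∧ c (g^[k] (i a)) = false ∧ f a = o (g^[k] (i a)) ∧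
      ∀ j ≤ k, size (g^[j] (i a)) ≤ B a) : PSp f := by
  obtain ⟨p, q, hq⟩ := hc.pair (hc.cond hg PT.id)
  obtain ⟨p0, N0, hN0, h0⟩ := PT_iff.1 hi
  obtain ⟨p1, N1, ⟨q1, hN1⟩, h1'⟩ := PT_iff.1 ho
  have := PB.size' (α := α)
  refine PSp_iff.2 ⟨.seq p0 (.seq preP (.seq (.loop 0 (bodyP p)) (.seq postP p1))),
    fun a => size a + N0 a + q.eval (B a) + q1.eval (B a) + 11 * B a + 13, by fun_prop, fun a => ?_⟩
  obtain ⟨k, h1, h2, h3, h4⟩ := h a
  obtain ⟨n, hn, e⟩ := loop_exec (p := p) (N := fun s => q.eval (size s)) (B := q.eval (B a)) (H := B a + 1) (by omega)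
    (fun s => by obtain ⟨n, m, hn, e⟩ := hq s; exact ⟨n, hn, m, by simpa [io_eq] using e⟩) k (i a) h1 h2
    (fun j hj => ⟨eval_mono q (h4 j hj), (h4 j hj).trans (by omega)⟩)
  have l1 := h4 0 (by omega)
  have l2 := h4 k le_rfl
  have l3 := (hN1 _).trans (eval_mono q1 l2)
  simp only [size, iterate_zero, _root_.id] at l1 l2 ⊢
  obtain ⟨n0, e0⟩ := Exec.of_X (h0 a)
  obtain ⟨n1, e1⟩ := Exec.of_X (h1' (g^[k] (i a)))
  obtain ⟨n2, hn2, m2, e2⟩ := X.pre (enc (i a))
  obtain ⟨n3, hn3, m3, e3⟩ := X.post (enc (g^[k] (i a)))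
  have e2 := (e2.space (B a) fun i => by rcases i with _ | i <;> simp [l1]).1
  have e3 := (e3.space (B a) fun i => by rcases i with _ | _ | i <;> simp [l2]).1
  rw [h3]
  exact ⟨_, .seq (e0.mono (by omega)) (.seq (e2.mono (by omega)) (.seq (e.mono (by omega))
    (.seq (e3.mono (by omega)) (e1.mono (by omega)))))⟩

end Pool.Agent.H46.CX
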