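import Pool.Agent.H46.CX.CXDefs

/-! Rational numbers as inputs. -/

namespace Pool.Agent.H46.CX

/-- rational numbers: numerator and denominator in lowest terms, in binary -/
instance : Enc ℚ := ⟨fun q => Enc.tr (q.num, q.den), fun _ _ h => by
  have := Enc.inj h
  simp only [Prod.mk.injEq] at this
  exact Rat.ext this.1 this.2⟩

end Pool.Agent.H46.CX
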